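import Pool.Agent.H252.MD.Iface

set_option autoImplicit false

/-! # MD-COV: the counting lemma -/

namespace Pool.Agent.H410.MDCOV

open Finset

/-- the patterns with at most `D` nonzero entries, all at most `M` -/
noncomputable def pat (I : Type) [Fintype I] [DecidableEq I] (D M : ℕ) : Finset (I → ℕ) :=
  ((univ : Finset (Finset I)).filter fun S => S.card ≤ D).biUnion fun S =>
    Fintype.piFinset fun i => if i ∈ S then Finset.range (M + 1) else {0}

theorem pat_card (I : Type) [Fintype I] [DecidableEq I] (D M : ℕ) :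
    (pat I D M).card ≤ 2 ^ Fintype.card I * (M + 1) ^ D := by
  unfold pat
  refine (card_biUnion_le).trans ?_
  have h1 : ∀ S ∈ (univ : Finset (Finset I)).filter (fun S => S.card ≤ D),
      (Fintype.piFinset fun i => if i ∈ S then Finset.range (M + 1) else ({0} : Finset ℕ)).card ≤
        (M + 1) ^ D := by
    intro S hS
    rw [mem_filter] at hS
    rw [Fintype.card_piFinset]
    have h2 : ∀ i, (if i ∈ S then Finset.range (M + 1) else ({0} : Finset ℕ)).card =
        if i ∈ S then M + 1 else 1 := by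
      intro i
      split_ifs <;> simp
    simp_rw [h2]
    rw [prod_ite_mem, univ_inter, prod_const]
    exact Nat.pow_le_pow_right (Nat.succ_pos M) hS.2
  refine (sum_le_sum h1).trans ?_
  rw [sum_const, smul_eq_mul]
  refine Nat.mul_le_mul_right _ ?_
  refine (card_filter_le _ _).trans ?_
  rw [card_univ, Fintype.card_finset]

theorem s_COV : Pool.Agent.H252.MD.S_COV := by
  classical
  intro X I _ p D X₀ hp hD
  refine ⟨2 ^ Fintype.card I * 3 ^ D, by positivity, ?_⟩
  intro ρ hρ hρ1
  set M := ⌈1 / ρ⌉₊ with hM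
  have hM1 : 1 / ρ ≤ M := Nat.le_ceil _
  have hM0 : (0 : ℝ) < M := lt_of_lt_of_le (by positivity) hM1
  have hM2 : (M : ℝ) + 1 ≤ 3 / ρ := by
    have h1 : (M : ℝ) < 1 / ρ + 1 := Nat.ceil_lt_add_one (by positivity)
    have h2 : 1 ≤ 1 / ρ := by rw [le_div_iff₀ hρ]; linarith
    have h3 : 3 / ρ = 1 / ρ + 1 / ρ + 1 / ρ := by ring
    linarith
  let q : X → I → ℕ := fun x i => ⌊M * p i x⌋₊
  have hq : ∀ x ∈ X₀, q x ∈ pat I D M := by
    intro x hx
    unfold pat
    rw [mem_biUnion]
    refine ⟨univ.filter fun i => p i x ≠ 0, ?_, ?_⟩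
    · rw [mem_filter]
      refine ⟨mem_univ _, ?_⟩
      have := hD x hx
      rw [Set.ncard_eq_toFinset_card'] at this
      simpa using this
    · rw [Fintype.mem_piFinset]
      intro i
      by_cases hi : p i x ≠ 0
      · rw [if_pos (by simpa using hi), mem_range]
        refine Nat.lt_succ_of_le ?_
        change ⌊M * p i x⌋₊ ≤ M
        have h1 : (M : ℝ) * p i x ≤ M := by
          have := (hp i x).2
          nlinarith
        exact (Nat.floor_le_floor h1).trans (by simp)
      · push Not at hi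
        rw [if_neg (by simpa using hi), mem_singleton]
        change ⌊M * p i x⌋₊ = 0
        rw [hi, mul_zero, Nat.floor_zero]
  let T := (pat I D M).filter fun t => ∃ x ∈ X₀, q x = t
  have hT : ∀ t ∈ T, ∃ x ∈ X₀, q x = t := fun t ht => (mem_filter.mp ht).2
  let F : Finset X := T.attach.image fun t => (hT t.1 t.2).choose
  refine ⟨F, ?_, ?_, ?_⟩
  · intro y hy
    rw [mem_coe, mem_image] at hy
    obtain ⟨t, -, rfl⟩ := hy
    exact (hT t.1 t.2).choose_spec.1
  · have h1 : F.card ≤ 2 ^ Fintype.card I * (M + 1) ^ D := by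
      refine card_image_le.trans ?_
      rw [card_attach]
      exact (card_filter_le _ _).trans (pat_card I D M)
    calc (F.card : ℝ) ≤ ((2 ^ Fintype.card I * (M + 1) ^ D : ℕ) : ℝ) := by exact_mod_cast h1
      _ = 2 ^ Fintype.card I * ((M : ℝ) + 1) ^ D := by push_cast; ring
      _ ≤ 2 ^ Fintype.card I * (3 / ρ) ^ D := by gcongr
      _ = 2 ^ Fintype.card I * 3 ^ D * (1 / ρ) ^ D := by
        rw [div_pow, div_pow, one_pow]
        ring
  · intro x hx
    have hxT : q x ∈ T := mem_filter.mpr ⟨hq x hx, x, hx, rfl⟩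
    refine ⟨(hT (q x) hxT).choose, mem_image.mpr ⟨⟨q x, hxT⟩, mem_attach _ _, rfl⟩, ?_⟩
    have hy := (hT (q x) hxT).choose_spec.2
    generalize (hT (q x) hxT).choose = y at hy
    intro i
    have hi : ⌊M * p i y⌋₊ = ⌊M * p i x⌋₊ := congrFun hy i
    have hx0 : 0 ≤ M * p i x := mul_nonneg hM0.le (hp i x).1
    have hy0 : 0 ≤ M * p i y := mul_nonneg hM0.le (hp i y).1
    have a1 := Nat.floor_le hx0
    have a2 := Nat.lt_floor_add_one ((M : ℝ) * p i x)
    have a3 := Nat.floor_le hy0
    have a4 := Nat.lt_floor_add_one ((M : ℝ) * p i y)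
    rw [hi] at a3 a4
    have a5 : |(M : ℝ) * p i x - M * p i y| ≤ 1 := by
      rw [abs_le]
      constructor <;> linarith
    rw [← mul_sub, abs_mul, abs_of_pos hM0] at a5
    have a6 : 1 ≤ M * ρ := by
      have := mul_le_mul_of_nonneg_right hM1 hρ.le
      rwa [one_div, inv_mul_cancel₀ hρ.ne'] at this
    have a7 : (M : ℝ) * |p i x - p i y| ≤ M * ρ := a5.trans a6
    exact le_of_mul_le_mul_left a7 hM0

end Pool.Agent.H410.MDCOV
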