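import Mathlib
import Pool.Agent.H666.TK.SpecC

/-!
# Task TK C2: sequential product sum
-/

set_option autoImplicit false

open Finset
open scoped Classical

namespace Pool.Agent.H410.TKT1

open Pool.Agent.H666.TK

noncomputable section

variable {V : Type} [Fintype V] [DecidableEq V]

/-- Vertices with index in `s` and time before `i`. -/
def Bf {K R : ℕ} (u : Fin K → Fin R) (s : Finset (Fin K)) (v : Fin K → V) (i : Fin K) : Finset V :=
  (s.filter fun j => u j < u i).image v

/-- One factor. -/
def fc (H : Finset (Finset V)) {K R : ℕ} (u : Fin K → Fin R) (s : Finset (Fin K)) (v : Fin K → V)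
    (i : Fin K) : ℝ :=
  if v i ∈ ext H (Bf u s v i) then ((e H (Bf u s v i) : ℝ))⁻¹ else 0

theorem fc_nonneg (H : Finset (Finset V)) {K R : ℕ} (u : Fin K → Fin R) (s : Finset (Fin K))
    (v : Fin K → V) (i : Fin K) : 0 ≤ fc H u s v i := by
  unfold fc
  split_ifs
  · positivity
  · exact le_rfl

theorem sum_update {K : ℕ} (i0 : Fin K) (F : (Fin K → V) → ℝ) :
    (Fintype.card V : ℝ) * ∑ v, F v = ∑ v : Fin K → V, ∑ x : V, F (Function.update v i0 x) := by
  have h1 : ∑ v : Fin K → V, ∑ x : V, F (Function.update v i0 x) =
      ∑ p : (Fin K → V) × V, F (Function.update p.1 i0 p.2) :=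
    (Fintype.sum_prod_type (fun p : (Fin K → V) × V => F (Function.update p.1 i0 p.2))).symm
  have h2 : ∑ v : Fin K → V, ∑ _x : V, F v = ∑ p : (Fin K → V) × V, F p.1 :=
    (Fintype.sum_prod_type (fun p : (Fin K → V) × V => F p.1)).symm
  have h3 : ∑ p : (Fin K → V) × V, F (Function.update p.1 i0 p.2) =
      ∑ p : (Fin K → V) × V, F p.1 := by
    have hinv : Function.Involutive
        (fun p : (Fin K → V) × V => ((Function.update p.1 i0 p.2, p.1 i0) : (Fin K → V) × V)) := by
      intro p
      ext1
      · show Function.update (Function.update p.1 i0 p.2) i0 (p.1 i0) = p.1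
        rw [Function.update_idem, Function.update_eq_self]
      · show (Function.update p.1 i0 p.2) i0 = p.2
        rw [Function.update_self]
    exact Fintype.sum_bijective _ hinv.bijective _ _ (fun p => rfl)
  rw [h1, h3, ← h2, Finset.mul_sum]
  refine Finset.sum_congr rfl fun v _ => ?_
  rw [Finset.sum_const, Finset.card_univ, nsmul_eq_mul]

theorem main_ineq (H : Finset (Finset V)) {K R : ℕ} (u : Fin K → Fin R) (s : Finset (Fin K)) :
    (Fintype.card V : ℝ) ^ s.card * ∑ v : Fin K → V, ∏ i ∈ s, fc H u s v i ≤
      (Fintype.card V : ℝ) ^ K := by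
  induction s using Finset.induction_on_max_value u with
  | empty => simp
  | insert i0 s hi0 hmax ih =>
    have hB : ∀ (v : Fin K → V) (i : Fin K), i ∈ insert i0 s → Bf u (insert i0 s) v i = Bf u s v i := by
      intro v i hi
      unfold Bf
      congr 1
      rw [Finset.filter_insert, if_neg]
      rcases Finset.mem_insert.1 hi with h | h
      · subst h; exact lt_irrefl _
      · exact not_lt.2 (hmax i h)
    have hf : ∀ (v : Fin K → V) (i : Fin K), i ∈ insert i0 s →
        fc H u (insert i0 s) v i = fc H u s v i := by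
      intro v i hi
      unfold fc
      rw [hB v i hi]
    have hBu : ∀ (v : Fin K → V) (x : V) (i : Fin K),
        Bf u s (Function.update v i0 x) i = Bf u s v i := by
      intro v x i
      unfold Bf
      refine Finset.image_congr ?_
      intro j hj
      have hj' : j ∈ s := (Finset.mem_filter.1 (Finset.mem_coe.1 hj)).1
      have : j ≠ i0 := fun h => hi0 (h ▸ hj')
      exact Function.update_of_ne this _ _
    have hfu : ∀ (v : Fin K → V) (x : V) (i : Fin K), i ∈ s →
        fc H u s (Function.update v i0 x) i = fc H u s v i := by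
      intro v x i hi
      have : i ≠ i0 := fun h => hi0 (h ▸ hi)
      unfold fc
      rw [hBu, Function.update_of_ne this]
    have hsum : ∀ v : Fin K → V, ∑ x : V, fc H u s (Function.update v i0 x) i0 ≤ 1 := by
      intro v
      have : ∀ x : V, fc H u s (Function.update v i0 x) i0 =
          if x ∈ ext H (Bf u s v i0) then ((e H (Bf u s v i0) : ℝ))⁻¹ else 0 := by
        intro x
        unfold fc
        rw [hBu, Function.update_self]
      rw [Finset.sum_congr rfl fun x _ => this x, Finset.sum_ite_mem, Finset.univ_inter,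
        Finset.sum_const, nsmul_eq_mul]
      unfold e
      exact mul_inv_le_one
    have hprod : ∀ v : Fin K → V, ∏ i ∈ insert i0 s, fc H u (insert i0 s) v i =
        fc H u s v i0 * ∏ i ∈ s, fc H u s v i := by
      intro v
      rw [Finset.prod_congr rfl fun i hi => hf v i hi, Finset.prod_insert hi0]
    rw [Finset.card_insert_of_notMem hi0, pow_succ, mul_assoc]
    refine le_trans ?_ ih
    refine mul_le_mul_of_nonneg_left ?_ (by positivity)
    rw [sum_update i0]
    refine Finset.sum_le_sum fun v _ => ?_
    have h5 : ∀ x : V, ∏ i ∈ insert i0 s, fc H u (insert i0 s) (Function.update v i0 x) i =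
        fc H u s (Function.update v i0 x) i0 * ∏ i ∈ s, fc H u s v i := by
      intro x
      rw [hprod, Finset.prod_congr rfl fun i hi => hfu v x i hi]
    rw [Finset.sum_congr rfl fun x _ => h5 x, ← Finset.sum_mul]
    have h6 : 0 ≤ ∏ i ∈ s, fc H u s v i := Finset.prod_nonneg fun i _ => fc_nonneg H u s v i
    calc _ ≤ 1 * ∏ i ∈ s, fc H u s v i := mul_le_mul_of_nonneg_right (hsum v) h6
      _ = _ := one_mul _

/-- **Task C2.** -/
theorem T1_holds : S_T1 := by
  intro V _ _ H K R u
  have hle : ∑ v ∈ Seq H K, ∏ i : Fin K, ((e H (bef v u i) : ℝ))⁻¹ ≤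
      ∑ v : Fin K → V, ∏ i : Fin K, fc H u univ v i := by
    have h1 : ∀ v ∈ Seq H K, ∏ i : Fin K, ((e H (bef v u i) : ℝ))⁻¹ =
        ∏ i : Fin K, fc H u univ v i := by
      intro v hv
      refine Finset.prod_congr rfl fun i _ => ?_
      have hv' := (Finset.mem_filter.1 hv).2
      have hb : Bf u univ v i = bef v u i := rfl
      have hm : v i ∈ ext H (bef v u i) := by
        unfold Pool.Agent.H666.TK.ext
        rw [Finset.mem_filter]
        refine ⟨Finset.mem_univ _, ?_, ?_⟩
        · intro h
          obtain ⟨j, hj, hji⟩ := Finset.mem_image.1 h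
          have := hv'.1 hji
          subst this
          exact lt_irrefl _ (Finset.mem_filter.1 hj).2
        · intro T hT hc
          refine hv'.2 T (hT.trans ?_) hc
          intro y hy
          rcases Finset.mem_insert.1 hy with h | h
          · subst h; exact Finset.mem_image_of_mem _ (Finset.mem_univ _)
          · obtain ⟨j, _, hj⟩ := Finset.mem_image.1 h
            rw [← hj]
            exact Finset.mem_image_of_mem _ (Finset.mem_univ _)
      unfold fc
      rw [hb, if_pos hm]
    rw [Finset.sum_congr rfl h1]
    exact Finset.sum_le_univ_sum_of_nonneg fun v =>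
      Finset.prod_nonneg fun i _ => fc_nonneg H u univ v i
  refine hle.trans ?_
  have hmain := main_ineq H u (univ : Finset (Fin K))
  rw [Finset.card_univ, Fintype.card_fin] at hmain
  rcases Nat.eq_zero_or_pos (Fintype.card V) with h0 | h0
  · rcases Nat.eq_zero_or_pos K with hK | hK
    · subst hK
      simp
    · have : IsEmpty V := Fintype.card_eq_zero_iff.1 h0
      have : Nonempty (Fin K) := ⟨⟨0, hK⟩⟩
      have : IsEmpty (Fin K → V) := ⟨fun v => IsEmpty.false (v ⟨0, hK⟩)⟩
      rw [Finset.univ_eq_empty, Finset.sum_empty]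
      exact zero_le_one
  · have hpos : (0:ℝ) < (Fintype.card V : ℝ) ^ K := by positivity
    have : (Fintype.card V : ℝ) ^ K * ∑ v : Fin K → V, ∏ i : Fin K, fc H u univ v i ≤
        (Fintype.card V : ℝ) ^ K * 1 := by rw [mul_one]; exact hmain
    exact le_of_mul_le_mul_left this hpos

end

end Pool.Agent.H410.TKT1
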